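import Mathlib
import Pool.Agent.K9h41.DC.Gp

/-!
# Invariant real pairings of rational representations
-/

set_option autoImplicit false
set_option linter.unusedSectionVars false

namespace Pool.Agent.K9h86.BK

open Module Pool.Agent.K4H74.SC

section functional

/-- the determinant of a real matrix and rational functionals -/
lemma exists_functional {N : ℕ} (M : Matrix (Fin N) (Fin N) ℝ) (hM : M.det ≠ 0) :
    ∃ l : ℝ →ₗ[ℚ] ℚ, (Matrix.of fun i j => l (M i j)).det ≠ 0 := by
  classical
  let S : Submodule ℚ ℝ := Submodule.span ℚ (Set.range fun p : Fin N × Fin N => M p.1 p.2)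
  have hS : FiniteDimensional ℚ S := FiniteDimensional.span_of_finite ℚ (Set.finite_range _)
  let b := Module.finBasis ℚ S
  have h1 : ∀ k, ∃ l : ℝ →ₗ[ℚ] ℚ, l ∘ₗ S.subtype = b.coord k := fun k =>
    LinearMap.exists_extend (b.coord k)
  choose l hl using h1
  have h2 : ∀ i j, M i j = ∑ k, (l k (M i j) : ℝ) * (b k : ℝ) := by
    intro i j
    have hm : M i j ∈ S := Submodule.subset_span ⟨(i, j), rfl⟩
    have h3 := congrArg S.subtype (b.sum_repr ⟨M i j, hm⟩)
    rw [map_sum] at h3
    conv_lhs => rw [show M i j = S.subtype ⟨M i j, hm⟩ from rfl, ← h3]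
    refine Finset.sum_congr rfl fun k _ => ?_
    have h4 : l k (M i j) = b.repr ⟨M i j, hm⟩ k := by
      have := LinearMap.congr_fun (hl k) ⟨M i j, hm⟩
      exact this
    rw [h4, map_smul]
    exact Rat.smul_def _ _
  let P : MvPolynomial (Fin (Module.finrank ℚ S)) ℚ :=
    (Matrix.of fun i j => ∑ k, MvPolynomial.C (l k (M i j)) * MvPolynomial.X k).det
  have h3 : P ≠ 0 := by
    intro h0
    apply hM
    have h4 : MvPolynomial.aeval (fun k => (b k : ℝ)) P = M.det := by
      rw [AlgHom.map_det]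
      congr 1
      ext i j
      rw [AlgHom.mapMatrix_apply, Matrix.map_apply, Matrix.of_apply, map_sum, h2 i j]
      refine Finset.sum_congr rfl fun k _ => ?_
      rw [map_mul, MvPolynomial.aeval_C, MvPolynomial.aeval_X, ← h2 i j]
      rfl
    rw [← h4, h0, map_zero]
  have h4 : ∃ x : Fin (Module.finrank ℚ S) → ℚ, MvPolynomial.eval x P ≠ 0 := by
    by_contra hcon
    push Not at hcon
    exact h3 (MvPolynomial.funext fun x => by rw [hcon x, map_zero])
  obtain ⟨x, hx⟩ := h4
  refine ⟨∑ k, x k • l k, ?_⟩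
  convert hx using 1
  rw [RingHom.map_det]
  congr 1
  ext i j
  rw [RingHom.mapMatrix_apply, Matrix.map_apply, Matrix.of_apply, Matrix.of_apply, map_sum,
    LinearMap.sum_apply]
  refine Finset.sum_congr rfl fun k _ => ?_
  rw [LinearMap.smul_apply, map_mul, MvPolynomial.eval_C, MvPolynomial.eval_X, smul_eq_mul,
    mul_comm]

end functional

section prod

/-- relations between the traces give relations between the determinants -/
lemma prod_detOf {I : Type} [Fintype I] (c : I → ℤ) (t : I → ℕ → ℂ) (D : I → ℂ)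
    (hD : ∀ i, D i ≠ 0) (h : ∀ i, DetOf (t i) (D i)) {t' : ℕ → ℂ} {D' : ℂ} (h' : DetOf t' D')
    (hc : ∀ k, ∑ i, (c i : ℂ) * t i k = t' k) : ∏ i, D i ^ c i = D' := by
  classical
  have h1 : DetOf (fun k => ∑ i, ((c i).toNat : ℂ) * t i k) (∏ i, D i ^ (c i).toNat) :=
    Pool.Agent.K9h41.DC.mk_sum _ fun i _ => Pool.Agent.K9h41.DC.mk_nsmul (h i) _
  have h2 : DetOf (fun k => ∑ i, ((-c i).toNat : ℂ) * t i k) (∏ i, D i ^ (-c i).toNat) :=
    Pool.Agent.K9h41.DC.mk_sum _ fun i _ => Pool.Agent.K9h41.DC.mk_nsmul (h i) _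
  have h3 := DetOf.add h1 h' h2 (fun k => by
    rw [← hc k, ← Finset.sum_add_distrib]
    refine Finset.sum_congr rfl fun i _ => ?_
    have h4 : ((c i : ℤ) : ℂ) = ((c i).toNat : ℂ) - ((-c i).toNat : ℂ) := by
      have := Int.toNat_sub_toNat_neg (c i)
      exact_mod_cast this.symm
    rw [h4]
    ring)
  have h5 : ∀ i, D i ^ c i = D i ^ (c i).toNat / D i ^ (-c i).toNat := by
    intro i
    rw [← zpow_natCast, ← zpow_natCast, ← zpow_sub₀ (hD i), Int.toNat_sub_toNat_neg]
  rw [Finset.prod_congr rfl (fun i _ => h5 i), Finset.prod_div_distrib, h3, mul_div_assoc,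
    div_self, mul_one]
  exact Finset.prod_ne_zero_iff.mpr fun i _ => pow_ne_zero _ (hD i)

end prod

end Pool.Agent.K9h86.BK
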