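import Mathlib
import Pool.Agent.K9h86.BK.La

/-!
# Invariants of subgroups
-/

set_option autoImplicit false
set_option linter.unusedSectionVars false

namespace Pool.Agent.K9h86.BK

open Module Pool.Agent.R389 Pool.Agent.K4H74.SC Pool.Agent.K9h41.DC

section fix

variable {G : Type} [Group G] {k : Type} [Field k] {V : Type} [AddCommGroup V] [Module k V]

/-- the invariants of a subgroup -/
def fixd (a : Representation k G V) (U : Subgroup G) : Submodule k V where
  carrier := {x | ∀ u ∈ U, a u x = x}
  zero_mem' := fun _ _ => map_zero _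
  add_mem' := fun {x y} hx hy u hu => by rw [map_add, hx u hu, hy u hu]
  smul_mem' := fun c x hx u hu => by rw [map_smul, hx u hu]

variable [Finite G] [CharZero k]

/-- the mean over a subgroup -/
noncomputable def avg (a : Representation k G V) (U : Subgroup G) : V →ₗ[k] V :=
  letI := Fintype.ofFinite U
  (Nat.card U : k)⁻¹ • ∑ u : U, a (u : G)

lemma avg_apply (a : Representation k G V) (U : Subgroup G) [Fintype U] (x : V) :
    avg a U x = (Nat.card U : k)⁻¹ • ∑ u : U, a (u : G) x := by
  rw [avg, LinearMap.smul_apply, LinearMap.sum_apply]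
  congr 1
  refine Finset.sum_congr ?_ fun _ _ => rfl
  ext u
  simp

lemma avg_mem (a : Representation k G V) (U : Subgroup G) (x : V) : avg a U x ∈ fixd a U := by
  classical
  have := Fintype.ofFinite U
  intro u hu
  rw [avg_apply, map_smul, map_sum]
  congr 1
  rw [← Equiv.sum_comp (Equiv.mulLeft (⟨u, hu⟩ : U)) (fun w : U => a (w : G) x)]
  refine Finset.sum_congr rfl fun w _ => ?_
  rw [Equiv.coe_mulLeft, Subgroup.coe_mul, map_mul, Module.End.mul_apply]

lemma avg_of_mem (a : Representation k G V) (U : Subgroup G) {x : V} (hx : x ∈ fixd a U) :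
    avg a U x = x := by
  classical
  have := Fintype.ofFinite U
  have hU : (Nat.card U : k) ≠ 0 := by exact_mod_cast Nat.card_pos.ne'
  rw [avg_apply, Finset.sum_congr rfl (fun u _ => hx u.1 u.2), Finset.sum_const, Finset.card_univ,
    ← Nat.card_eq_fintype_card, ← Nat.cast_smul_eq_nsmul k, smul_smul, inv_mul_cancel₀ hU,
    one_smul]

end fix

section form

variable {G : Type} [Group G] [Finite G] {V : Type} [AddCommGroup V] [Module ℚ V]
  {H : Type} [AddCommGroup H] [Module ℚ H] (a : Representation ℚ G V) (b : Representation ℚ G H)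
  {R : Type} [AddCommGroup R] [Module ℚ R] (B : V →ₗ[ℚ] H →ₗ[ℚ] R)

/-- an invariant pairing does not change if one argument is replaced by its mean and the other is
invariant -/
lemma pair_avg (hB : ∀ g x y, B (a g x) (b g y) = B x y) (U : Subgroup G) {x : V}
    (hx : x ∈ fixd a U) (y : H) : B x (avg b U y) = B x y := by
  classical
  have := Fintype.ofFinite U
  have hU : (Nat.card U : ℚ) ≠ 0 := by exact_mod_cast Nat.card_pos.ne'
  have h1 : ∀ u : U, B x (b (u : G) y) = B x y := by
    intro u
    conv_lhs => rw [← hx u.1 u.2]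
    exact hB u.1 x y
  rw [avg_apply, map_smul, map_sum, Finset.sum_congr rfl (fun u _ => h1 u), Finset.sum_const,
    Finset.card_univ, ← Nat.card_eq_fintype_card, ← Nat.cast_smul_eq_nsmul ℚ, smul_smul,
    inv_mul_cancel₀ hU, one_smul]

lemma pair_avg' (hB : ∀ g x y, B (a g x) (b g y) = B x y) (U : Subgroup G) (x : V) {y : H}
    (hy : y ∈ fixd b U) : B (avg a U x) y = B x y :=
  pair_avg b a B.flip (fun g x y => hB g y x) U hy x

end form

section nondeg

variable {G : Type} [Group G] [Finite G] {V : Type} [AddCommGroup V] [Module ℚ V]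
  {H : Type} [AddCommGroup H] [Module ℚ H] {a : Representation ℚ G V} {b : Representation ℚ G H}
  {B : V →ₗ[ℚ] H →ₗ[ℚ] ℚ} (hB : ∀ g x y, B (a g x) (b g y) = B x y)

include hB

lemma left_nondeg (hl : ∀ x, (∀ y, B x y = 0) → x = 0) (U : Subgroup G) {x : V}
    (hx : x ∈ fixd a U) (h : ∀ y ∈ fixd b U, B x y = 0) : x = 0 := by
  refine hl x fun y => ?_
  rw [← pair_avg a b B hB U hx y]
  exact h _ (avg_mem b U y)

lemma finrank_le [FiniteDimensional ℚ V] [FiniteDimensional ℚ H]
    (hl : ∀ x, (∀ y, B x y = 0) → x = 0) (U : Subgroup G) :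
    Module.finrank ℚ (fixd a U) ≤ Module.finrank ℚ (fixd b U) := by
  let f : fixd a U →ₗ[ℚ] Module.Dual ℚ (fixd b U) :=
    ((fixd b U).subtype.lcomp ℚ ℚ).comp (B.comp (fixd a U).subtype)
  have hf : Function.Injective f := by
    rw [← LinearMap.ker_eq_bot, LinearMap.ker_eq_bot']
    intro x hx
    apply Subtype.ext
    refine left_nondeg hB hl U x.2 fun y hy => ?_
    exact LinearMap.congr_fun hx ⟨y, hy⟩
  have h1 := LinearMap.finrank_le_finrank_of_injective hf
  rwa [Subspace.dual_finrank_eq] at h1

/-- the determinant in bases of the invariants -/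
lemma det_ne (hl : ∀ x, (∀ y, B x y = 0) → x = 0) (U : Subgroup G) {d : ℕ}
    (ξ : Basis (Fin d) ℚ (fixd a U)) (γ : Basis (Fin d) ℚ (fixd b U)) :
    (Matrix.of fun i j => B (ξ i : V) (γ j : H)).det ≠ 0 := by
  intro h0
  obtain ⟨c, hc0, hc⟩ := Matrix.exists_vecMul_eq_zero_iff.mpr h0
  apply hc0
  have h1 : ∀ j, B (∑ i, c i • (ξ i : V)) (γ j : H) = 0 := by
    intro j
    have h2 := congrFun hc j
    rw [Matrix.vecMul, dotProduct] at h2
    rw [map_sum, LinearMap.sum_apply]
    simpa using h2
  have h2 : ∑ i, c i • (ξ i : V) = 0 := by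
    refine left_nondeg hB hl U (Submodule.sum_mem _ fun i _ =>
      Submodule.smul_mem _ _ (ξ i).2) fun y hy => ?_
    have h3 : y = ∑ j, γ.repr ⟨y, hy⟩ j • (γ j : H) := by
      have h4 := congrArg (fixd b U).subtype (γ.sum_repr ⟨y, hy⟩)
      rw [map_sum] at h4
      exact h4.symm
    rw [h3, map_sum]
    refine Finset.sum_eq_zero fun j _ => ?_
    rw [map_smul, h1 j, smul_zero]
  have h3 : ∑ i, c i • ξ i = 0 := by
    apply Subtype.ext
    have := map_sum (fixd a U).subtype (fun i => c i • ξ i) Finset.univ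
    exact this.trans h2
  funext i
  exact (Fintype.linearIndependent_iff.mp ξ.linearIndependent) c h3 i

end nondeg

end Pool.Agent.K9h86.BK
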