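import Mathlib
import Pool.Agent.K9h86.BK.In

/-!
# The determinants of an invariant real pairing on the invariants of subgroups
-/

set_option autoImplicit false
set_option linter.unusedSectionVars false

namespace Pool.Agent.K9h86.BK

open Module Pool.Agent.R389 Pool.Agent.K4H74.SC Pool.Agent.K9h41.DC

section Y

variable {G : Type} [Group G] [Finite G] {H : Type} [AddCommGroup H] [Module ℚ H]
  (b : Representation ℚ G H)

/-- the action on the complex linear forms -/
noncomputable def act (g : G) : (H →ₗ[ℚ] ℂ) →ₗ[ℂ] (H →ₗ[ℚ] ℂ) where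
  toFun φ := φ ∘ₗ b g⁻¹
  map_add' _ _ := rfl
  map_smul' _ _ := rfl

lemma act_apply (g : G) (φ : H →ₗ[ℚ] ℂ) (y : H) : act b g φ y = φ (b g⁻¹ y) := rfl

/-- the dual representation -/
noncomputable def dl : Representation ℂ G (H →ₗ[ℚ] ℂ) where
  toFun := act b
  map_one' := by
    ext φ y
    rw [act_apply, inv_one, map_one]
    rfl
  map_mul' g g' := by
    ext φ y
    rw [act_apply, mul_inv_rev, map_mul]
    rfl

lemma dl_apply (g : G) (φ : H →ₗ[ℚ] ℂ) (y : H) : dl b g φ y = φ (b g⁻¹ y) := rfl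

/-- a functional which is invariant is determined on the invariants -/
lemma fix_avg (U : Subgroup G) {φ : H →ₗ[ℚ] ℂ} (hφ : φ ∈ fixd (dl b) U) (y : H) :
    φ (avg b U y) = φ y := by
  classical
  have := Fintype.ofFinite U
  have hU : (Nat.card U : ℚ) ≠ 0 := by exact_mod_cast Nat.card_pos.ne'
  have h1 : ∀ u : U, φ (b (u : G) y) = φ y := by
    intro u
    have h2 := LinearMap.congr_fun (hφ (u : G)⁻¹ (U.inv_mem u.2)) y
    rwa [dl_apply, inv_inv] at h2
  rw [avg_apply, map_smul, map_sum, Finset.sum_congr rfl (fun u _ => h1 u), Finset.sum_const,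
    Finset.card_univ, ← Nat.card_eq_fintype_card, ← Nat.cast_smul_eq_nsmul ℚ, smul_smul,
    inv_mul_cancel₀ hU, one_smul]

lemma mem_fixY (U : Subgroup G) {φ : H →ₗ[ℚ] ℂ} (h : ∀ u ∈ U, ∀ y, φ (b u y) = φ y) :
    φ ∈ fixd (dl b) U := by
  intro u hu
  ext y
  rw [dl_apply]
  exact h _ (U.inv_mem hu) y

/-- the values on a basis of the invariants -/
noncomputable def ev (U : Subgroup G) {d : ℕ} (γ : Basis (Fin d) ℚ (fixd b U)) :
    fixd (dl b) U ≃ₗ[ℂ] (Fin d → ℂ) :=
  LinearEquiv.ofBijective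
    ({ toFun := fun φ j => φ.1 (γ j : H)
       map_add' := fun _ _ => rfl
       map_smul' := fun _ _ => rfl } : fixd (dl b) U →ₗ[ℂ] (Fin d → ℂ)) (by
    constructor
    · intro φ φ' h
      apply Subtype.ext
      ext y
      rw [← fix_avg b U φ.2 y, ← fix_avg b U φ'.2 y]
      have h3 : avg b U y = ∑ j, γ.repr ⟨_, avg_mem b U y⟩ j • (γ j : H) := by
        have h4 := congrArg (fixd b U).subtype (γ.sum_repr ⟨_, avg_mem b U y⟩)
        rw [map_sum] at h4
        exact h4.symm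
      rw [h3, map_sum, map_sum]
      refine Finset.sum_congr rfl fun j _ => ?_
      rw [map_smul, map_smul]
      congr 1
      exact congrFun h j
    · intro w
      let f : fixd b U →ₗ[ℚ] ℂ := γ.constr ℚ w
      let e : H →ₗ[ℚ] fixd b U := (avg b U).codRestrict (fixd b U) (avg_mem b U)
      have he : ∀ u ∈ U, ∀ y, avg b U (b u y) = avg b U y := by
        intro u hu y
        classical
        have := Fintype.ofFinite U
        rw [avg_apply, avg_apply]
        congr 1
        rw [← Equiv.sum_comp (Equiv.mulRight (⟨u, hu⟩ : U)) (fun w : U => b (w : G) y)]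
        refine Finset.sum_congr rfl fun w _ => ?_
        rw [Equiv.coe_mulRight, Subgroup.coe_mul, map_mul, Module.End.mul_apply]
      refine ⟨⟨f ∘ₗ e, mem_fixY b U fun u hu y => ?_⟩, ?_⟩
      · change f (e (b u y)) = f (e y)
        congr 1
        exact Subtype.ext (he u hu y)
      · funext j
        change f (e (γ j : H)) = w j
        have h1 : e (γ j : H) = γ j := Subtype.ext (avg_of_mem b U (γ j).2)
        rw [h1]
        exact γ.constr_basis ℚ w j)

lemma ev_apply (U : Subgroup G) {d : ℕ} (γ : Basis (Fin d) ℚ (fixd b U)) (φ : fixd (dl b) U)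
    (j : Fin d) : ev b U γ φ j = φ.1 (γ j : H) := rfl

end Y

section tr

variable {G : Type} [Group G] [Finite G] {Y : Type} [AddCommGroup Y] [Module ℂ Y]
  [FiniteDimensional ℂ Y] (τ : Representation ℂ G Y) (A : Y →ₗ[ℂ] Y)
  (hA : ∀ g y, A (τ g y) = τ g (A y))

include hA in
lemma restr_mem (U : Subgroup G) : ∀ y ∈ fixd τ U, A y ∈ fixd τ U := fun y hy u hu => by
  rw [← hA, hy u hu]

/-- the restriction to the invariants -/
noncomputable def rs (U : Subgroup G) : fixd τ U →ₗ[ℂ] fixd τ U :=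
  A.restrict (restr_mem τ A hA U)

lemma rs_pow (U : Subgroup G) (k : ℕ) (y : fixd τ U) : ((rs τ A hA U ^ k) y : Y) = (A ^ k) y.1 := by
  induction k generalizing y with
  | zero => rfl
  | succ k ih =>
    rw [pow_succ, Module.End.mul_apply, ih, pow_succ, Module.End.mul_apply]
    rfl

/-- the trace of `g A^k` -/
noncomputable def tg (k : ℕ) (g : G) : ℂ := LinearMap.trace ℂ Y (τ g ∘ₗ (A ^ k))

include hA in
lemma tg_conj (k : ℕ) (x g : G) : tg τ A k (x * g * x⁻¹) = tg τ A k g := by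
  have hc := comm_pow (Λ := A) hA k
  have h1 : τ (x * g * x⁻¹) ∘ₗ (A ^ k) = τ x * (τ g ∘ₗ (A ^ k) * τ x⁻¹) := by
    ext y
    rw [map_mul, map_mul]
    change τ x (τ g (τ x⁻¹ ((A ^ k) y))) = τ x (τ g ((A ^ k) (τ x⁻¹ y)))
    rw [hc]
  rw [tg, h1, LinearMap.trace_mul_comm, mul_assoc, ← map_mul, inv_mul_cancel, map_one, mul_one]
  rfl

lemma trace_rs (U : Subgroup G) [Fintype U] (k : ℕ) :
    LinearMap.trace ℂ _ (rs τ A hA U ^ k) = (Nat.card U : ℂ)⁻¹ * ∑ u : U, tg τ A k (u : G) := by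
  have hc := comm_pow (Λ := A) hA k
  let E : Y →ₗ[ℂ] Y := avg τ U ∘ₗ (A ^ k)
  have h1 : ∀ y, E y ∈ fixd τ U := fun y => avg_mem τ U _
  have h2 : rs τ A hA U ^ k = E.restrict (fun y (_ : y ∈ fixd τ U) => h1 y) := by
    apply LinearMap.ext
    intro y
    apply Subtype.ext
    rw [rs_pow]
    exact (avg_of_mem τ U (restr_mem τ (A ^ k) hc U y.1 y.2)).symm
  rw [h2, LinearMap.trace_restrict_eq_of_forall_mem (fixd τ U) E h1 (fun x _ => h1 x)]
  have h3 : E = (Nat.card U : ℂ)⁻¹ • ∑ u : U, (τ (u : G) ∘ₗ (A ^ k)) := by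
    ext y
    change avg τ U ((A ^ k) y) = _
    rw [avg_apply, LinearMap.smul_apply, LinearMap.sum_apply]
    rfl
  rw [h3, map_smul, map_sum, smul_eq_mul]
  rfl

/-- Frobenius reciprocity -/
lemma sum_class (U : Subgroup G) [Fintype U] [Fintype G] (f : G → ℂ)
    (hf : ∀ x g, f (x * g * x⁻¹) = f g) :
    (Nat.card U : ℂ)⁻¹ * ∑ u : U, f (u : G) = (Nat.card G : ℂ)⁻¹ * ∑ g : G, (fx U g : ℂ) * f g := by
  classical
  have hG : (Nat.card G : ℂ) ≠ 0 := by exact_mod_cast Nat.card_pos.ne'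
  have h1 : ∀ g : G, (fx U g : ℂ) * f g = (Nat.card U : ℂ)⁻¹ *
      ∑ x : G, ext U (fun _ => (1 : ℂ)) (x⁻¹ * g * x) * f g := by
    intro g
    rw [← ind_one, ind_eq, mul_assoc, Finset.sum_mul]
  have h2 : ∀ x : G, ∑ g : G, ext U (fun _ => (1 : ℂ)) (x⁻¹ * g * x) * f g = ∑ u : U, f (u : G) := by
    intro x
    rw [← Equiv.sum_comp (MulAut.conj x).toEquiv]
    have h3 : ∀ g : G, ext U (fun _ => (1 : ℂ)) (x⁻¹ * ((MulAut.conj x).toEquiv g) * x) *
        f ((MulAut.conj x).toEquiv g) = if g ∈ U then f g else 0 := by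
      intro g
      have h4 : x⁻¹ * ((MulAut.conj x).toEquiv g) * x = g := by
        change x⁻¹ * (x * g * x⁻¹) * x = g
        group
      have h5 : f ((MulAut.conj x).toEquiv g) = f g := hf x g
      rw [h4, h5]
      by_cases hg : g ∈ U
      · rw [ext_mem _ _ hg, if_pos hg, one_mul]
      · rw [ext_not _ _ hg, if_neg hg, zero_mul]
    rw [Finset.sum_congr rfl (fun g _ => h3 g), ← Finset.sum_filter]
    exact (Finset.sum_subtype _ (by simp) _)
  rw [Finset.sum_congr rfl (fun g _ => h1 g), ← Finset.mul_sum, Finset.sum_comm,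
    Finset.sum_congr rfl (fun x _ => h2 x), Finset.sum_const, Finset.card_univ, nsmul_eq_mul,
    ← Nat.card_eq_fintype_card]
  field_simp

lemma detOf_rs (U : Subgroup G) [Fintype G] :
    DetOf (fun k => (Nat.card G : ℂ)⁻¹ * ∑ g : G, (fx U g : ℂ) * tg τ A k g)
      (LinearMap.det (rs τ A hA U)) := by
  classical
  have := Fintype.ofFinite U
  refine ⟨fixd τ U, inferInstance, inferInstance, inferInstance, rs τ A hA U, fun k => ?_, rfl⟩
  rw [trace_rs, sum_class U _ (tg_conj τ A hA k)]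

include hA in
/-- the dimensions -/
lemma finrank_rel [Fintype (Subgroup G)] (c : Subgroup G → ℤ) (W : Subgroup G)
    (h : ∀ g : G, ∑ U, c U * (fx U g : ℤ) = fx W g) :
    ∑ U, c U * (Module.finrank ℂ (fixd τ U) : ℤ) = Module.finrank ℂ (fixd τ W) := by
  classical
  have := Fintype.ofFinite G
  have h1 : ∀ U : Subgroup G, (Module.finrank ℂ (fixd τ U) : ℂ)
      = (Nat.card G : ℂ)⁻¹ * ∑ g : G, (fx U g : ℂ) * tg τ A 0 g := by
    intro U
    have := Fintype.ofFinite U
    rw [← sum_class U _ (tg_conj τ A hA 0), ← trace_rs τ A hA U 0, pow_zero, LinearMap.trace_one]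
  have h2 : ((∑ U, c U * (Module.finrank ℂ (fixd τ U) : ℤ) : ℤ) : ℂ)
      = ((Module.finrank ℂ (fixd τ W) : ℤ) : ℂ) := by
    push_cast
    simp only [h1]
    simp only [Finset.mul_sum]
    rw [Finset.sum_comm]
    refine Finset.sum_congr rfl fun g _ => ?_
    have h3 : ((fx W g : ℤ) : ℂ) = ∑ U, (c U : ℂ) * (fx U g : ℂ) := by
      rw [← h g]
      push_cast
      rfl
    rw [show (fx W g : ℂ) = ((fx W g : ℤ) : ℂ) by push_cast; rfl, h3, Finset.sum_mul,
      Finset.mul_sum]
    exact Finset.sum_congr rfl fun U _ => by ring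
  exact_mod_cast h2

/-- the determinants -/
lemma det_rel [Fintype (Subgroup G)] (c : Subgroup G → ℤ) (W : Subgroup G)
    (h : ∀ g : G, ∑ U, c U * (fx U g : ℤ) = fx W g)
    (h0 : ∀ U : Subgroup G, LinearMap.det (rs τ A hA U) ≠ 0) :
    ∏ U, LinearMap.det (rs τ A hA U) ^ c U = LinearMap.det (rs τ A hA W) := by
  classical
  have := Fintype.ofFinite G
  refine prod_detOf c _ _ h0 (fun U => detOf_rs τ A hA U) (detOf_rs τ A hA W) fun k => ?_
  simp only [Finset.mul_sum]
  rw [Finset.sum_comm]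
  refine Finset.sum_congr rfl fun g _ => ?_
  have h3 : ((fx W g : ℤ) : ℂ) = ∑ U, (c U : ℂ) * (fx U g : ℂ) := by
    rw [← h g]
    push_cast
    rfl
  rw [show (fx W g : ℂ) = ((fx W g : ℤ) : ℂ) by push_cast; rfl, h3, Finset.sum_mul,
    Finset.mul_sum]
  exact Finset.sum_congr rfl fun U _ => by ring

end tr

end Pool.Agent.K9h86.BK
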