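import Mathlib
import Pool.Agent.K9h86.BK.Yv

/-!
# Relations between the determinants of an invariant real pairing on the invariants of subgroups
-/

set_option autoImplicit false
set_option linter.unusedSectionVars false

namespace Pool.Agent.K9h86.BK

open Module Pool.Agent.R389 Pool.Agent.K4H74.SC Pool.Agent.K9h41.DC

lemma det_step {d : ℕ} (T : (Fin d → ℂ) →ₗ[ℂ] (Fin d → ℂ)) (M0 M : Matrix (Fin d) (Fin d) ℂ)
    (h : ∀ i, T (M0 i) = M i) : LinearMap.det T * M0.det = M.det := by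
  rw [← LinearMap.det_toMatrix', ← Matrix.det_transpose M0, ← Matrix.det_mul,
    ← Matrix.det_transpose M]
  congr 1
  ext i j
  rw [Matrix.transpose_apply, ← h j, ← LinearMap.toMatrix'_mulVec T (M0 j)]
  rfl

section reg

variable {G : Type} [Group G] [Finite G] {V : Type} [AddCommGroup V] [Module ℚ V]
  {H : Type} [AddCommGroup H] [Module ℚ H] {a : Representation ℚ G V} {b : Representation ℚ G H}
  {B : V →ₗ[ℚ] H →ₗ[ℚ] ℝ} (hB : ∀ g x y, B (a g x) (b g y) = B x y)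

/-- real numbers as complex numbers -/
noncomputable def e1 : ℝ →ₗ[ℚ] ℂ := Complex.ofRealHom.toAddMonoidHom.toRatLinearMap

lemma e1_apply (x : ℝ) : e1 x = x := rfl

/-- the values of a functional as complex numbers -/
noncomputable def e0 (l : ℝ →ₗ[ℚ] ℚ) : ℝ →ₗ[ℚ] ℂ := (Algebra.linearMap ℚ ℂ) ∘ₗ l

lemma e0_apply (l : ℝ →ₗ[ℚ] ℚ) (x : ℝ) : e0 l x = (l x : ℚ) := rfl

include hB in
lemma compr_eq (e : ℝ →ₗ[ℚ] ℂ) (g : G) (x : V) :
    B.compr₂ e (a g x) = dl b g (B.compr₂ e x) := by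
  ext y
  rw [dl_apply]
  change e (B (a g x) y) = e (B x (b g⁻¹ y))
  rw [← hB g x (b g⁻¹ y), ← Module.End.mul_apply (b g), ← map_mul, mul_inv_cancel, map_one]
  rfl

include hB in
lemma compr_mem (e : ℝ →ₗ[ℚ] ℂ) (U : Subgroup G) {x : V} (hx : x ∈ fixd a U) :
    B.compr₂ e x ∈ fixd (dl b) U := by
  intro u hu
  rw [← compr_eq hB, hx u hu]

include hB in
/-- the automorphism which transforms the rational structure given by a functional to the one given
by the pairing -/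
theorem exists_A {N : ℕ} (v : Basis (Fin N) ℚ V) (h : Basis (Fin N) ℚ H)
    (hdet : (Matrix.of fun i j => B (v i) (h j)).det ≠ 0) {l : ℝ →ₗ[ℚ] ℚ}
    (hl : (Matrix.of fun i j => l (B (v i) (h j))).det ≠ 0) :
    FiniteDimensional ℂ (H →ₗ[ℚ] ℂ) ∧ ∃ A : (H →ₗ[ℚ] ℂ) →ₗ[ℂ] (H →ₗ[ℚ] ℂ),
      (∀ x, A (B.compr₂ (e0 l) x) = B.compr₂ e1 x) ∧ (∀ g y, A (dl b g y) = dl b g (A y)) ∧
      Function.Injective A := by
  classical
  let E : (Fin N → ℂ) ≃ₗ[ℂ] (H →ₗ[ℚ] ℂ) := h.constr ℂ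
  have hE : ∀ (φ : H →ₗ[ℚ] ℂ) (j : Fin N), E.symm φ j = φ (h j) := fun φ j => rfl
  have hfd : FiniteDimensional ℂ (H →ₗ[ℚ] ℂ) := Module.Finite.equiv E
  have hfr : Module.finrank ℂ (H →ₗ[ℚ] ℂ) = N := by
    rw [← E.finrank_eq, Module.finrank_fin_fun]
  let M0 : Matrix (Fin N) (Fin N) ℂ := Matrix.of fun i j => ((l (B (v i) (h j)) : ℚ) : ℂ)
  have hM0 : M0.det ≠ 0 := by
    have h1 : M0 = (Matrix.of fun i j => l (B (v i) (h j))).map (algebraMap ℚ ℂ) := rfl
    rw [h1, ← RingHom.mapMatrix_apply, ← RingHom.map_det]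
    exact (map_ne_zero _).mpr hl
  let M1 : Matrix (Fin N) (Fin N) ℂ := Matrix.of fun i j => ((B (v i) (h j) : ℝ) : ℂ)
  have hM1 : M1.det ≠ 0 := by
    have h1 : M1 = (Matrix.of fun i j => B (v i) (h j)).map (algebraMap ℝ ℂ) := rfl
    rw [h1, ← RingHom.mapMatrix_apply, ← RingHom.map_det]
    exact (map_ne_zero _).mpr hdet
  have hli : LinearIndependent ℂ fun i => B.compr₂ (e0 l) (v i) := by
    have h1 : LinearIndependent ℂ M0.row :=
      Matrix.linearIndependent_rows_of_isUnit ((Matrix.isUnit_iff_isUnit_det _).mpr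
        (isUnit_iff_ne_zero.mpr hM0))
    have h2 : M0.row = E.symm ∘ fun i => B.compr₂ (e0 l) (v i) := rfl
    rw [h2] at h1
    exact LinearIndependent.of_comp E.symm.toLinearMap h1
  let bas : Basis (Fin N) ℂ (H →ₗ[ℚ] ℂ) :=
    basisOfLinearIndependentOfCardEqFinrank' _ hli (by rw [hfr, Fintype.card_fin])
  have hbas : ∀ i, bas i = B.compr₂ (e0 l) (v i) := fun i => by
    simp [bas]
  let A : (H →ₗ[ℚ] ℂ) →ₗ[ℂ] (H →ₗ[ℚ] ℂ) := bas.constr ℂ fun i => B.compr₂ e1 (v i)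
  have hA1 : ∀ x, A (B.compr₂ (e0 l) x) = B.compr₂ e1 x := by
    have h1 : (A.restrictScalars ℚ) ∘ₗ (B.compr₂ (e0 l)) = B.compr₂ e1 := by
      refine v.ext fun i => ?_
      change A (B.compr₂ (e0 l) (v i)) = _
      rw [← hbas i]
      exact bas.constr_basis ℂ _ i
    intro x
    exact LinearMap.congr_fun h1 x
  refine ⟨hfd, A, hA1, fun g y => ?_, ?_⟩
  · have h1 : A ∘ₗ (dl b g) = (dl b g) ∘ₗ A := by
      refine bas.ext fun i => ?_
      change A (dl b g (bas i)) = dl b g (A (bas i))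
      rw [hbas, ← compr_eq hB, hA1, hA1, compr_eq hB]
    exact LinearMap.congr_fun h1 y
  · let T : (Fin N → ℂ) →ₗ[ℂ] (Fin N → ℂ) := E.symm.toLinearMap ∘ₗ A ∘ₗ E.toLinearMap
    have h1 : LinearMap.det T * M0.det = M1.det := by
      refine det_step T M0 M1 fun i => ?_
      have h2 : E (M0 i) = B.compr₂ (e0 l) (v i) := by
        apply E.symm.injective
        rw [E.symm_apply_apply]
        funext j
        rw [hE]
        rfl
      change E.symm (A (E (M0 i))) = M1 i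
      rw [h2, hA1]
      funext j
      rw [hE]
      rfl
    have h2 : LinearMap.det T ≠ 0 := by
      intro h0
      rw [h0, zero_mul] at h1
      exact hM1 h1.symm
    have h3 : Function.Injective T := by
      have := (LinearMap.equivOfDetNeZero T h2).injective
      exact this
    intro x y hxy
    have h4 : T (E.symm x) = T (E.symm y) := by
      change E.symm (A (E (E.symm x))) = E.symm (A (E (E.symm y)))
      rw [E.apply_symm_apply, E.apply_symm_apply, hxy]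
    exact E.symm.injective (h3 h4)

include hB in
/-- the determinant on the invariants of a subgroup -/
theorem det_fix [FiniteDimensional ℂ (H →ₗ[ℚ] ℂ)] {l : ℝ →ₗ[ℚ] ℚ} {A : (H →ₗ[ℚ] ℂ) →ₗ[ℂ] (H →ₗ[ℚ] ℂ)}
    (hA1 : ∀ x, A (B.compr₂ (e0 l) x) = B.compr₂ e1 x)
    (hA2 : ∀ g y, A (dl b g y) = dl b g (A y)) (U : Subgroup G) {d : ℕ}
    (ξ : Basis (Fin d) ℚ (fixd a U)) (γ : Basis (Fin d) ℚ (fixd b U)) :
    LinearMap.det (rs (dl b) A hA2 U) *
      (((Matrix.of fun i j => l (B (ξ i : V) (γ j : H))).det : ℚ) : ℂ) =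
      (((Matrix.of fun i j => B (ξ i : V) (γ j : H)).det : ℝ) : ℂ) := by
  classical
  let E := ev b U γ
  let M0 : Matrix (Fin d) (Fin d) ℂ := Matrix.of fun i j => ((l (B (ξ i) (γ j)) : ℚ) : ℂ)
  let M1 : Matrix (Fin d) (Fin d) ℂ := Matrix.of fun i j => ((B (ξ i) (γ j) : ℝ) : ℂ)
  have h0 : (((Matrix.of fun i j => l (B (ξ i : V) (γ j : H))).det : ℚ) : ℂ) = M0.det := by
    have h1 : M0 = (Matrix.of fun i j => l (B (ξ i) (γ j))).map (algebraMap ℚ ℂ) := rfl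
    rw [h1, ← RingHom.mapMatrix_apply, ← RingHom.map_det]
    rfl
  have h1 : (((Matrix.of fun i j => B (ξ i : V) (γ j : H)).det : ℝ) : ℂ) = M1.det := by
    have h1 : M1 = (Matrix.of fun i j => B (ξ i) (γ j)).map (algebraMap ℝ ℂ) := rfl
    rw [h1, ← RingHom.mapMatrix_apply, ← RingHom.map_det]
    rfl
  rw [h0, h1]
  let T : (Fin d → ℂ) →ₗ[ℂ] (Fin d → ℂ) :=
    E.toLinearMap ∘ₗ (rs (dl b) A hA2 U) ∘ₗ E.symm.toLinearMap
  have h2 : LinearMap.det T = LinearMap.det (rs (dl b) A hA2 U) :=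
    LinearMap.det_conj _ E
  rw [← h2]
  refine det_step T M0 M1 fun i => ?_
  have h3 : E.symm (M0 i) = ⟨B.compr₂ (e0 l) (ξ i), compr_mem hB _ U (ξ i).2⟩ := by
    rw [LinearEquiv.symm_apply_eq]
    rfl
  change E (rs (dl b) A hA2 U (E.symm (M0 i))) = M1 i
  rw [h3]
  have h4 : rs (dl b) A hA2 U ⟨B.compr₂ (e0 l) (ξ i), compr_mem hB _ U (ξ i).2⟩
      = ⟨B.compr₂ e1 (ξ i), compr_mem hB _ U (ξ i).2⟩ := by
    apply Subtype.ext
    exact hA1 _
  rw [h4]
  rfl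

lemma det_rs_ne [FiniteDimensional ℂ (H →ₗ[ℚ] ℂ)] {A : (H →ₗ[ℚ] ℂ) →ₗ[ℂ] (H →ₗ[ℚ] ℂ)}
    (hA2 : ∀ g y, A (dl b g y) = dl b g (A y)) (hA3 : Function.Injective A) (U : Subgroup G) :
    LinearMap.det (rs (dl b) A hA2 U) ≠ 0 := by
  have h1 : Function.Injective (rs (dl b) A hA2 U) := by
    intro x y hxy
    apply Subtype.ext
    exact hA3 (congrArg Subtype.val hxy)
  have h2 : IsUnit (LinearMap.det (rs (dl b) A hA2 U)) :=
    LinearEquiv.isUnit_det' (LinearEquiv.ofInjectiveEndo _ h1)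
  exact h2.ne_zero

lemma nondeg_of_det {B0 : V →ₗ[ℚ] H →ₗ[ℚ] ℚ} {N : ℕ} (v : Basis (Fin N) ℚ V)
    (h : Basis (Fin N) ℚ H) (hdet : (Matrix.of fun i j => B0 (v i) (h j)).det ≠ 0) (x : V)
    (hx : ∀ y, B0 x y = 0) : x = 0 := by
  have h1 : (fun i => v.repr x i) = 0 := by
    by_contra h0
    apply hdet
    refine Matrix.exists_vecMul_eq_zero_iff.mp ⟨_, h0, ?_⟩
    funext j
    rw [Matrix.vecMul, dotProduct]
    have h2 := hx (h j)
    rw [← v.sum_repr x, map_sum, LinearMap.sum_apply] at h2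
    simpa using h2
  rw [← v.sum_repr x]
  refine Finset.sum_eq_zero fun i _ => ?_
  rw [show v.repr x i = 0 from congrFun h1 i, zero_smul]

include hB in
/-- **the relation between the determinants** -/
theorem reg_rel {N : ℕ} (v : Basis (Fin N) ℚ V) (h : Basis (Fin N) ℚ H)
    (hdet : (Matrix.of fun i j => B (v i) (h j)).det ≠ 0) [Fintype (Subgroup G)]
    (c : Subgroup G → ℤ) (W : Subgroup G) (hc : ∀ g : G, ∑ U, c U * (fx U g : ℤ) = fx W g)
    (d : Subgroup G → ℕ) (e : ℕ) (he : ∑ U, c U * (d U : ℤ) = e) (z : Subgroup G → ℂ)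
    (hd : ∀ U, c U ≠ 0 → ∃ (ξ : Basis (Fin (d U)) ℚ (fixd a U))
      (γ : Basis (Fin (d U)) ℚ (fixd b U)),
      (((Matrix.of fun i j => B (ξ i : V) (γ j : H)).det : ℝ) : ℂ) = z U) :
    ∃ (ξ : Basis (Fin e) ℚ (fixd a W)) (γ : Basis (Fin e) ℚ (fixd b W)) (q : ℚ), q ≠ 0 ∧
      (((Matrix.of fun i j => B (ξ i : V) (γ j : H)).det : ℝ) : ℂ) = q * ∏ U, z U ^ c U := by
  classical
  obtain ⟨l, hl⟩ := exists_functional _ hdet
  obtain ⟨hfd, A, hA1, hA2, hA3⟩ := exists_A hB v h hdet hl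
  have hfV : FiniteDimensional ℚ V := Module.Finite.of_basis v
  have hfH : FiniteDimensional ℚ H := Module.Finite.of_basis h
  have hB0 : ∀ g x y, B.compr₂ l (a g x) (b g y) = B.compr₂ l x y := by
    intro g x y
    change l (B (a g x) (b g y)) = l (B x y)
    rw [hB]
  have hnl : ∀ x, (∀ y, B.compr₂ l x y = 0) → x = 0 :=
    fun x hx => nondeg_of_det (B0 := B.compr₂ l) v h hl x hx
  have hnr : ∀ y, (∀ x, B.compr₂ l x y = 0) → y = 0 := by
    intro y hy
    refine nondeg_of_det (B0 := (B.compr₂ l).flip) h v ?_ y hy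
    rw [← Matrix.det_transpose]
    exact hl
  have hra : ∀ U : Subgroup G, Module.finrank ℚ (fixd a U) = Module.finrank ℚ (fixd b U) :=
    fun U => le_antisymm (finrank_le hB0 hnl U)
      (finrank_le (B := (B.compr₂ l).flip) (fun g x y => hB0 g y x) hnr U)
  have hrc : ∀ U : Subgroup G,
      Module.finrank ℂ (fixd (dl b) U) = Module.finrank ℚ (fixd b U) := by
    intro U
    rw [(ev b U (Module.finBasis ℚ (fixd b U))).finrank_eq, Module.finrank_fin_fun]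
  -- the given determinants
  have h1 : ∀ U, ∃ r : ℚ, r ≠ 0 ∧ (c U ≠ 0 →
      LinearMap.det (rs (dl b) A hA2 U) * (r : ℂ) = z U ∧ Module.finrank ℚ (fixd b U) = d U) := by
    intro U
    by_cases hU : c U = 0
    · exact ⟨1, one_ne_zero, fun h0 => absurd hU h0⟩
    · obtain ⟨ξ, γ, h2⟩ := hd U hU
      refine ⟨_, det_ne hB0 hnl U ξ γ, fun _ => ⟨?_, ?_⟩⟩
      · rw [← h2]
        exact det_fix hB hA1 hA2 U ξ γ
      · rw [Module.finrank_eq_card_basis γ, Fintype.card_fin]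
  choose r hr0 hr using h1
  have hdim : Module.finrank ℚ (fixd b W) = e := by
    have h2 := finrank_rel (dl b) A hA2 c W hc
    have h3 : ∑ U, c U * (Module.finrank ℂ (fixd (dl b) U) : ℤ) = ∑ U, c U * (d U : ℤ) := by
      refine Finset.sum_congr rfl fun U _ => ?_
      by_cases hU : c U = 0
      · rw [hU, zero_mul, zero_mul]
      · rw [hrc, (hr U hU).2]
    rw [h3, he, hrc] at h2
    exact_mod_cast h2.symm
  let ξ : Basis (Fin e) ℚ (fixd a W) := Module.finBasisOfFinrankEq ℚ _ ((hra W).trans hdim)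
  let γ : Basis (Fin e) ℚ (fixd b W) := Module.finBasisOfFinrankEq ℚ _ hdim
  have hW := det_fix hB hA1 hA2 W ξ γ
  have hW0 := det_ne hB0 hnl W ξ γ
  have h2 := det_rel (dl b) A hA2 c W hc (det_rs_ne hA2 hA3)
  refine ⟨ξ, γ, (Matrix.of fun i j => B.compr₂ l (ξ i : V) (γ j : H)).det / ∏ U, r U ^ c U,
    div_ne_zero hW0 (Finset.prod_ne_zero_iff.mpr fun U _ => zpow_ne_zero _ (hr0 U)), ?_⟩
  rw [← hW, ← h2]
  have h3 : ∀ U, z U ^ c U = LinearMap.det (rs (dl b) A hA2 U) ^ c U * (r U : ℂ) ^ c U := by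
    intro U
    by_cases hU : c U = 0
    · rw [hU, zpow_zero, zpow_zero, zpow_zero, one_mul]
    · rw [← (hr U hU).1, mul_zpow]
  rw [Finset.prod_congr rfl (fun U _ => h3 U), Finset.prod_mul_distrib]
  have h4 : (∏ U, (r U : ℂ) ^ c U) ≠ 0 :=
    Finset.prod_ne_zero_iff.mpr fun U _ => zpow_ne_zero _ (by exact_mod_cast hr0 U)
  have h5 : (((Matrix.of fun i j => B.compr₂ l (ξ i : V) (γ j : H)).det / ∏ U, r U ^ c U : ℚ) : ℂ)
      = (((Matrix.of fun i j => l (B (ξ i : V) (γ j : H))).det : ℚ) : ℂ) /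
        ∏ U, (r U : ℂ) ^ c U := by
    rw [Rat.cast_div, Rat.cast_prod]
    congr 1
    exact Finset.prod_congr rfl fun U _ => Rat.cast_zpow _ _
  rw [h5]
  generalize (((Matrix.of fun i j => l (B (ξ i : V) (γ j : H))).det : ℚ) : ℂ) = w
  field_simp

end reg

end Pool.Agent.K9h86.BK
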