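import Mathlib

/-!
# Beilinson's conjecture for `K_2` of curves over number fields: the definitions
-/

set_option autoImplicit false

namespace Pool.Agent.K9h86.BK

open NumberField Polynomial IsDedekindDomain ComplexEmbedding

/-- The data of a smooth projective geometrically irreducible curve `C` over the number field `F`
which enter the L-function `L(C, s)` and the homology of `C(ℂ) = ∐ C_τ(ℂ)`, `τ : F → ℂ`. -/
structure CurveOver (F : Type) [Field F] [NumberField F] where
  /-- the genus -/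
  g : ℕ
  /-- a finite set of primes of `F`, with all primes of bad reduction -/
  bad : Finset (Ideal (𝓞 F))
  /-- the characteristic polynomial of the geometric Frobenius at the prime `p` of `F` on `H¹` -/
  frob : Ideal (𝓞 F) → ℚ[X]
  monic : ∀ p : Ideal (𝓞 F), p.IsPrime → p ≠ ⊥ → p ∉ bad →
    (frob p).Monic ∧ (frob p).natDegree = 2 * g
  pure : ∀ p : Ideal (𝓞 F), p.IsPrime → p ≠ ⊥ → p ∉ bad → ∀ α : ℂ,
    ((frob p).map (algebraMap ℚ ℂ)).IsRoot α → ‖α‖ = (Ideal.absNorm p : ℝ) ^ ((1 : ℝ) / 2)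
  /-- the complex conjugation from `H₁(C_τ(ℂ), ℚ)` to `H₁(C_τ'(ℂ), ℚ)`, where `τ'` is the complex
  conjugate of `τ`. It is given as a matrix: bases over `ℚ` of the spaces `H₁(C_τ(ℂ), ℚ)`, which
  have the dimension `2g`, are chosen. -/
  Finf : (F →+* ℂ) → Matrix (Fin (2 * g)) (Fin (2 * g)) ℚ
  Finf_Finf : ∀ τ : F →+* ℂ, Finf (conjugate τ) * Finf τ = 1

/-- The data of the integral motivic cohomology of the curve `C` over the finite Galois extension
`K` of `F`. -/
structure MotivicCohomology {F : Type} [Field F] [NumberField F] (C : CurveOver F) (K : Type)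
    [Field K] [NumberField K] [Algebra F K] where
  /-- the `ℚ`-vector space `H²_ℳ(C_K, ℚ(2))_ℤ` -/
  V : Type
  [addCommGroupV : AddCommGroup V]
  [moduleV : Module ℚ V]
  /-- the action of the Galois group, through its action on the coefficients of the functions -/
  gal : (K ≃ₐ[F] K) → V → V
  gal_one : ∀ ξ : V, gal 1 ξ = ξ
  gal_mul : ∀ (s t : K ≃ₐ[F] K) (ξ : V), gal (s * t) ξ = gal s (gal t ξ)
  gal_add : ∀ (s : K ≃ₐ[F] K) (ξ η : V), gal s (ξ + η) = gal s ξ + gal s η
  /-- the regulator: the values of `r(ξ)` on the basis of `H₁(C_σ(ℂ), ℚ)`, for `σ : K → ℂ` -/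
  reg : V → (K →+* ℂ) → Fin (2 * C.g) → ℝ
  reg_add : ∀ (ξ η : V) (σ : K →+* ℂ) (i : Fin (2 * C.g)),
    reg (ξ + η) σ i = reg ξ σ i + reg η σ i
  reg_gal : ∀ (s : K ≃ₐ[F] K) (ξ : V) (σ : K →+* ℂ),
    reg (gal s ξ) σ = reg ξ (σ.comp (s : K →+* K))
  reg_conj : ∀ (ξ : V) (σ : K →+* ℂ) (i : Fin (2 * C.g)),
    ∑ j, reg ξ (conjugate σ) j * C.Finf (σ.comp (algebraMap F K)) j i = -reg ξ σ i

attribute [instance] MotivicCohomology.addCommGroupV MotivicCohomology.moduleV

section defs

variable {F : Type} [Field F] [NumberField F] (C : CurveOver F)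
  (k : Type) [Field k] [NumberField k] [Algebra F k]

/-- The Euler factor of `L(C_k, s)` at the prime `v` of `k` and `s = 2`. If the prime `p` of `F`
below `v` is not in the finite set `bad`, and `f` is the degree of `v` over `p`, it is the product
of the `(1 - α^f N(v)^(-2))⁻¹` over the eigenvalues `α` of the Frobenius at `p`. The finitely many
Euler factors above the primes in `bad`, which are rational numbers, are left out. -/
noncomputable def eulerFactor (v : HeightOneSpectrum (𝓞 k)) : ℂ :=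
  if v.asIdeal.under (𝓞 F) ∈ C.bad then 1
  else ((((C.frob (v.asIdeal.under (𝓞 F))).map (algebraMap ℚ ℂ)).roots.map fun α =>
    1 - α ^ v.asIdeal.inertiaDeg (𝓞 F) * ((Ideal.absNorm v.asIdeal : ℂ) ^ 2)⁻¹).prod)⁻¹

/-- `L(C_k, 2)`, an absolutely convergent Euler product, up to a rational factor -/
noncomputable def LValue : ℂ := ∏' v : HeightOneSpectrum (𝓞 k), eulerFactor C k v

/-- `H₁(C_k(ℂ), ℚ)⁻`: the families of cycles `γ_σ` on the `C_σ(ℂ)`, `σ : k → ℂ`, which are
interchanged with their negatives by the complex conjugation. -/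
def homologyMinus : Submodule ℚ ((k →+* ℂ) → Fin (2 * C.g) → ℚ) where
  carrier := {γ | ∀ σ : k →+* ℂ,
    (C.Finf (σ.comp (algebraMap F k))).mulVec (γ σ) = -γ (conjugate σ)}
  zero_mem' := fun σ => by simp
  add_mem' := fun {a b} ha hb σ => by
    rw [Pi.add_apply, Matrix.mulVec_add, ha σ, hb σ, Pi.add_apply, neg_add]
  smul_mem' := fun c a ha σ => by
    rw [Pi.smul_apply, Matrix.mulVec_smul, ha σ, Pi.smul_apply, smul_neg]

variable {C} {K : Type} [Field K] [NumberField K] [Algebra F K] (D : MotivicCohomology C K)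
  [Algebra k K]

/-- `H²_ℳ(C_k, ℚ(2))_ℤ`: by Galois descent, the invariants of `Gal(K/k)` in
`H²_ℳ(C_K, ℚ(2))_ℤ`. -/
def motivic : Submodule ℚ D.V where
  carrier := {ξ | ∀ s : K ≃ₐ[F] K, (∀ x : k, s (algebraMap k K x) = algebraMap k K x) →
    D.gal s ξ = ξ}
  zero_mem' := fun s _ => (AddMonoidHom.mk' (D.gal s) (D.gal_add s)).map_zero
  add_mem' := fun {a b} ha hb s hs => by rw [D.gal_add, ha s hs, hb s hs]
  smul_mem' := fun c a ha s hs =>
    ((AddMonoidHom.mk' (D.gal s) (D.gal_add s)).toRatLinearMap.map_smul c a).trans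
      (congrArg (c • ·) (ha s hs))

/-- Beilinson's regulator pairing of `H²_ℳ(C_k, ℚ(2))_ℤ` and `H₁(C_k(ℂ), ℚ)⁻`: the value at the
family of the `γ_σ` is the sum over the `σ : k → ℂ` of the `r(ξ)(γ_σ)`, computed over any extension
of `σ` to `K`, or as here as the mean over the `[K : k]` extensions. -/
noncomputable def pairing (ξ : D.V) (γ : (k →+* ℂ) → Fin (2 * C.g) → ℚ) : ℝ :=
  (Module.finrank k K : ℝ)⁻¹ *
    ∑ σ : K →+* ℂ, ∑ i, D.reg ξ σ i * γ (σ.comp (algebraMap k K)) i

/-- The pairing `B` has, in bases over `ℚ` with `d` elements of the `ℚ`-vector spaces `S` and `T`,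
a determinant in `ℚ^× z`. -/
def HasDet {V H : Type} [AddCommGroup V] [Module ℚ V] [AddCommGroup H] [Module ℚ H]
    (B : V → H → ℝ) (S : Submodule ℚ V) (T : Submodule ℚ H) (d : ℕ) (z : ℂ) : Prop :=
  ∃ (ξ : Module.Basis (Fin d) ℚ S) (γ : Module.Basis (Fin d) ℚ T) (q : ℚ), q ≠ 0 ∧
    (((Matrix.of fun i j => B (ξ i) (γ j)).det : ℝ) : ℂ) = q * z

/-- **Beilinson's conjecture (Q1 and Q2) for `K_2` of the curve `C` over the field `k`**: the
dimensions of `H²_ℳ(C_k, ℚ(2))_ℤ` and `H₁(C_k(ℂ), ℚ)⁻` are `g [k : ℚ]`, and the determinant of the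
regulator pairing in bases over `ℚ` is a nonzero rational number times `(2π)^(-2g[k:ℚ]) L(C_k, 2)`.
(So the pairing is non-degenerate, as the L-value is not zero, and the choice of the bases does not
matter.) -/
def Beilinson : Prop :=
  HasDet (pairing k D) (motivic k D) (homologyMinus C k) (C.g * Module.finrank ℚ k)
    (LValue C k / (2 * Real.pi) ^ (2 * (C.g * Module.finrank ℚ k)))

end defs

/-- Hyperelementary groups: for some prime number `p` there is a normal cyclic subgroup of an order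
prime to `p` whose quotient is a `p`-group. -/
def Hyperelementary (U : Type) [Group U] : Prop :=
  ∃ p : ℕ, p.Prime ∧ ∃ c : U, (orderOf c).Coprime p ∧
    (∀ u : U, u * c * u⁻¹ ∈ Subgroup.zpowers c) ∧ ∀ u : U, ∃ k : ℕ, u ^ (p ^ k) ∈ Subgroup.zpowers c

end Pool.Agent.K9h86.BK
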