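import Mathlib
import Pool.Agent.K9h86.BK.Df
import Pool.Agent.K9h86.BK.Rg

/-!
# The regulator pairing as an invariant pairing of representations
-/

set_option autoImplicit false
set_option linter.unusedSectionVars false

namespace Pool.Agent.K9h86.BK

open Module NumberField ComplexEmbedding

section emb

/-- an embedding extends -/
lemma exists_ext {k K : Type} [Field k] [NumberField k] [Field K] [NumberField K] [Algebra k K]
    (τ : k →+* ℂ) : ∃ σ : K →+* ℂ, σ.comp (algebraMap k K) = τ := by
  let := τ.toAlgebra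
  have : FiniteDimensional k K := Module.Finite.of_restrictScalars_finite ℚ k K
  let φ : K →ₐ[k] ℂ := IsAlgClosed.lift
  refine ⟨φ.toRingHom, ?_⟩
  ext x
  exact φ.commutes x

/-- two extensions of an embedding are conjugate -/
lemma exists_conj {k K : Type} [Field k] [NumberField k] [Field K] [NumberField K] [Algebra k K]
    [IsGalois k K] {σ σ' : K →+* ℂ} (h : σ.comp (algebraMap k K) = σ'.comp (algebraMap k K)) :
    ∃ u : K ≃ₐ[k] K, ∀ x, σ' x = σ (u x) := by
  let i1 : Algebra K ℂ := σ.toAlgebra
  let i2 : Algebra k ℂ := (σ.comp (algebraMap k K)).toAlgebra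
  have i3 : IsScalarTower k K ℂ := IsScalarTower.of_algebraMap_eq fun x => rfl
  let φ : K →ₐ[k] ℂ := { σ' with commutes' := fun x => (RingHom.congr_fun h x).symm }
  refine ⟨Normal.algHomEquivAut k ℂ K φ, fun x => ?_⟩
  have h1 : (Normal.algHomEquivAut k ℂ K).symm (Normal.algHomEquivAut k ℂ K φ) = φ :=
    Equiv.symm_apply_apply _ _
  have h2 := AlgHom.congr_fun h1 x
  exact h2.symm

end emb

variable {F : Type} [Field F] [NumberField F] {C : CurveOver F} {K : Type} [Field K]
  [NumberField K] [Algebra F K]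

section rep

variable (C K)

/-- the action of the Galois group on the cycles -/
noncomputable def galH : Representation ℚ (K ≃ₐ[F] K) (homologyMinus C K) where
  toFun g :=
    { toFun := fun γ => ⟨fun σ => γ.1 (σ.comp (g : K →+* K)), fun σ => by
        have h1 := γ.2 (σ.comp (g : K →+* K))
        have h2 : (σ.comp (g : K →+* K)).comp (algebraMap F K) = σ.comp (algebraMap F K) := by
          ext x
          change σ (g (algebraMap F K x)) = σ (algebraMap F K x)
          rw [g.commutes]
        rw [h2] at h1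
        exact h1⟩
      map_add' := fun _ _ => rfl
      map_smul' := fun _ _ => rfl }
  map_one' := by
    apply LinearMap.ext
    intro γ
    apply Subtype.ext
    funext σ
    rfl
  map_mul' g g' := by
    apply LinearMap.ext
    intro γ
    apply Subtype.ext
    funext σ
    rfl

lemma galH_apply (g : K ≃ₐ[F] K) (γ : homologyMinus C K) (σ : K →+* ℂ) :
    (galH C K g γ).1 σ = γ.1 (σ.comp (g : K →+* K)) := rfl

end rep

variable (D : MotivicCohomology C K)

/-- the action of the Galois group on the motivic cohomology -/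
noncomputable def galV : Representation ℚ (K ≃ₐ[F] K) D.V where
  toFun g := (AddMonoidHom.mk' (D.gal g) (D.gal_add g)).toRatLinearMap
  map_one' := by
    apply LinearMap.ext
    intro ξ
    exact D.gal_one ξ
  map_mul' g g' := by
    apply LinearMap.ext
    intro ξ
    exact D.gal_mul g g' ξ

lemma galV_apply (g : K ≃ₐ[F] K) (ξ : D.V) : galV D g ξ = D.gal g ξ := rfl

lemma reg_smul (c : ℚ) (ξ : D.V) (σ : K →+* ℂ) (i : Fin (2 * C.g)) :
    D.reg (c • ξ) σ i = c • D.reg ξ σ i :=
  (AddMonoidHom.mk' (fun ξ => D.reg ξ σ i)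
    (fun ξ η => D.reg_add ξ η σ i)).toRatLinearMap.map_smul c ξ

/-- the sum of the values of the regulator -/
noncomputable def tot : D.V →ₗ[ℚ] homologyMinus C K →ₗ[ℚ] ℝ :=
  LinearMap.mk₂ ℚ (fun ξ γ => ∑ σ : K →+* ℂ, ∑ i, D.reg ξ σ i * γ.1 σ i)
    (fun ξ ξ' γ => by
      simp only [D.reg_add, add_mul, Finset.sum_add_distrib])
    (fun c ξ γ => by
      simp only [reg_smul, Finset.smul_sum, smul_mul_assoc])
    (fun ξ γ γ' => by
      simp only [Submodule.coe_add, Pi.add_apply, Rat.cast_add, mul_add, Finset.sum_add_distrib])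
    (fun c ξ γ => by
      simp only [Submodule.coe_smul, Pi.smul_apply, smul_eq_mul, Rat.cast_mul, Rat.smul_def,
        Finset.mul_sum]
      refine Finset.sum_congr rfl fun σ _ => Finset.sum_congr rfl fun i _ => ?_
      ring)

lemma tot_apply (ξ : D.V) (γ : homologyMinus C K) :
    tot D ξ γ = ∑ σ : K →+* ℂ, ∑ i, D.reg ξ σ i * γ.1 σ i := rfl

/-- composition with an automorphism -/
def compE (g : K ≃ₐ[F] K) : (K →+* ℂ) ≃ (K →+* ℂ) where
  toFun σ := σ.comp (g : K →+* K)
  invFun σ := σ.comp (g.symm : K →+* K)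
  left_inv σ := by
    ext x
    change σ (g (g.symm x)) = σ x
    rw [g.apply_symm_apply]
  right_inv σ := by
    ext x
    change σ (g.symm (g x)) = σ x
    rw [g.symm_apply_apply]

lemma tot_inv (g : K ≃ₐ[F] K) (ξ : D.V) (γ : homologyMinus C K) :
    tot D (galV D g ξ) (galH C K g γ) = tot D ξ γ := by
  rw [tot_apply, tot_apply]
  refine Eq.trans (Finset.sum_congr rfl fun σ _ => ?_)
    (Equiv.sum_comp (compE g) fun σ => ∑ i, D.reg ξ σ i * γ.1 σ i)
  rw [galV_apply, D.reg_gal, galH_apply]
  rfl

/-- the invariants with the determinants -/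
def BB (U : Subgroup (K ≃ₐ[F] K)) (d : ℕ) (z : ℂ) : Prop :=
  ∃ (ξ : Basis (Fin d) ℚ (fixd (galV D) U)) (γ : Basis (Fin d) ℚ (fixd (galH C K) U)) (q : ℚ),
    q ≠ 0 ∧ (((Matrix.of fun i j => tot D (ξ i : D.V) (γ j : homologyMinus C K)).det : ℝ) : ℂ)
      = q * z

section link

variable {k : Type} [Field k] [NumberField k] [Algebra F k] [Algebra k K] [IsScalarTower F k K]
  [IsGalois F K] {U : Subgroup (K ≃ₐ[F] K)}
  (hU : ∀ s : K ≃ₐ[F] K, s ∈ U ↔ ∀ x : k, s (algebraMap k K x) = algebraMap k K x)

include hU in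
lemma motivic_eq : motivic k D = fixd (galV D) U := by
  ext ξ
  exact ⟨fun h u hu => h u ((hU u).mp hu), fun h s hs => h s ((hU s).mpr hs)⟩

include hU in
lemma comp_fix {u : K ≃ₐ[F] K} (hu : u ∈ U) (σ : K →+* ℂ) :
    (σ.comp (u : K →+* K)).comp (algebraMap k K) = σ.comp (algebraMap k K) := by
  ext x
  change σ (u (algebraMap k K x)) = σ (algebraMap k K x)
  rw [(hU u).mp hu x]

/-- the cycles on the curve over `k` are the invariant ones -/
noncomputable def lft : homologyMinus C k ≃ₗ[ℚ] fixd (galH C K) U :=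
  LinearEquiv.ofBijective
    ({ toFun := fun γ => ⟨⟨fun σ => γ.1 (σ.comp (algebraMap k K)), fun σ => by
          have h1 := γ.2 (σ.comp (algebraMap k K))
          rw [RingHom.comp_assoc, ← IsScalarTower.algebraMap_eq] at h1
          exact h1⟩, fun u hu => by
          apply Subtype.ext
          funext σ
          change γ.1 ((σ.comp (u : K →+* K)).comp (algebraMap k K)) = γ.1 (σ.comp (algebraMap k K))
          rw [comp_fix hU hu]⟩
       map_add' := fun _ _ => rfl
       map_smul' := fun _ _ => rfl } : homologyMinus C k →ₗ[ℚ] fixd (galH C K) U) (by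
    constructor
    · intro γ γ' h
      apply Subtype.ext
      funext τ
      obtain ⟨σ, rfl⟩ := exists_ext (K := K) τ
      exact congrFun (congrArg Subtype.val (congrArg Subtype.val h)) σ
    · intro γ
      choose ex hex using fun τ : k →+* ℂ => exists_ext (K := K) τ
      have hgal : IsGalois k K := IsGalois.tower_top_of_isGalois F k K
      have h1 : ∀ σ σ' : K →+* ℂ, σ.comp (algebraMap k K) = σ'.comp (algebraMap k K) →
          γ.1.1 σ = γ.1.1 σ' := by
        intro σ σ' h
        obtain ⟨u, hu⟩ := exists_conj h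
        have h2 : u.restrictScalars F ∈ U := (hU _).mpr fun x => u.commutes x
        have h3 := congrFun (congrArg Subtype.val (γ.2 _ h2)) σ
        rw [galH_apply] at h3
        rw [← h3]
        exact congrArg γ.1.1 (RingHom.ext fun x => (hu x).symm)
      refine ⟨⟨fun τ => γ.1.1 (ex τ), fun τ => ?_⟩, ?_⟩
      · have h2 := γ.1.2 (ex τ)
        rw [IsScalarTower.algebraMap_eq F k K, ← RingHom.comp_assoc, hex] at h2
        rw [h2]
        congr 1
        apply h1
        rw [hex]
        ext x
        change star (ex τ (algebraMap k K x)) = star (τ x)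
        rw [← RingHom.congr_fun (hex τ) x]
        rfl
      · apply Subtype.ext
        apply Subtype.ext
        funext σ
        exact h1 _ _ (hex _))

lemma lft_apply (γ : homologyMinus C k) (σ : K →+* ℂ) :
    (lft (C := C) hU γ).1.1 σ = γ.1 (σ.comp (algebraMap k K)) := rfl

lemma pairing_eq (ξ : D.V) (γ : homologyMinus C k) :
    pairing k D ξ γ = (Module.finrank k K : ℝ)⁻¹ * tot D ξ (lft (C := C) hU γ).1 := rfl

include hU in
/-- the conjecture in terms of the invariants -/
lemma beil_iff : Beilinson k D ↔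
    BB D U (C.g * Module.finrank ℚ k)
      (LValue C k / (2 * Real.pi) ^ (2 * (C.g * Module.finrank ℚ k))) := by
  have hK : FiniteDimensional k K := Module.Finite.of_restrictScalars_finite ℚ k K
  have hn : (Module.finrank k K : ℚ) ≠ 0 := by exact_mod_cast Module.finrank_pos.ne'
  have hn' : (Module.finrank k K : ℂ) ≠ 0 := by exact_mod_cast Module.finrank_pos.ne'
  have key : ∀ (d : ℕ) (ξ : Fin d → D.V) (γ : Fin d → homologyMinus C k),
      (((Matrix.of fun i j => pairing k D (ξ i) (γ j)).det : ℝ) : ℂ)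
        = ((Module.finrank k K : ℂ) ^ d)⁻¹ *
          (((Matrix.of fun i j => tot D (ξ i) (lft (C := C) hU (γ j)).1).det : ℝ) : ℂ) := by
    intro d ξ γ
    have h1 : (Matrix.of fun i j => pairing k D (ξ i) (γ j))
        = (Module.finrank k K : ℝ)⁻¹ • Matrix.of fun i j => tot D (ξ i) (lft (C := C) hU (γ j)).1 := by
      ext i j
      rw [Matrix.smul_apply, Matrix.of_apply, Matrix.of_apply, smul_eq_mul]
      exact pairing_eq D hU _ _
    rw [h1, Matrix.det_smul, Fintype.card_fin]
    push_cast
    rw [inv_pow]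
  have hm : motivic k D = fixd (galV D) U := motivic_eq D hU
  constructor
  · rintro ⟨ξ, γ, q, hq, h⟩
    rw [key] at h
    refine ⟨ξ.map (LinearEquiv.ofEq _ _ hm), γ.map (lft (C := C) hU),
      q * (Module.finrank k K : ℚ) ^ (C.g * Module.finrank ℚ k), mul_ne_zero hq (pow_ne_zero _ hn),
      ?_⟩
    have h2 : (((Matrix.of fun i j => tot D ((ξ.map (LinearEquiv.ofEq _ _ hm)) i : D.V)
        ((γ.map (lft (C := C) hU)) j : homologyMinus C K)).det : ℝ) : ℂ)
        = (((Matrix.of fun i j => tot D (ξ i) (lft (C := C) hU (γ j)).1).det : ℝ) : ℂ) := by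
      congr 3
    rw [h2]
    have h3 : ((Module.finrank k K : ℂ) ^ (C.g * Module.finrank ℚ k)) ≠ 0 := pow_ne_zero _ hn'
    rw [inv_mul_eq_iff_eq_mul₀ h3] at h
    rw [h]
    push_cast
    ring
  · rintro ⟨ξ, γ, q, hq, h⟩
    refine ⟨ξ.map (LinearEquiv.ofEq _ _ hm.symm), γ.map (lft (C := C) hU).symm,
      q * ((Module.finrank k K : ℚ) ^ (C.g * Module.finrank ℚ k))⁻¹,
      mul_ne_zero hq (inv_ne_zero (pow_ne_zero _ hn)), ?_⟩
    rw [key]
    have h2 : (((Matrix.of fun i j => tot D (((ξ.map (LinearEquiv.ofEq _ _ hm.symm)) i : motivic k D) : D.V)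
        ((lft (C := C) hU ((γ.map (lft (C := C) hU).symm) j)) : homologyMinus C K)).det : ℝ) : ℂ)
        = (((Matrix.of fun i j => tot D (ξ i) (γ j : homologyMinus C K)).det : ℝ) : ℂ) := by
      congr 3
      ext i j
      rw [Basis.map_apply, Basis.map_apply, LinearEquiv.coe_ofEq_apply,
        LinearEquiv.apply_symm_apply]
    rw [h2, h]
    push_cast
    ring

end link

end Pool.Agent.K9h86.BK
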