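import Mathlib
import Pool.Agent.K9h86.BK.Lk
import Pool.Agent.K9h86.RT.As

/-!
# Beilinson's conjecture and relations between permutation characters
-/

set_option autoImplicit false
set_option linter.unusedSectionVars false

namespace Pool.Agent.K9h86.BK

open Module NumberField IntermediateField IsDedekindDomain Polynomial Pool.Agent.R389
  Pool.Agent.K4H74.ST Pool.Agent.K4H74.SC

section L

variable {F : Type} [Field F] [NumberField F] (C : CurveOver F)

/-- the L-function of the curve as the one of a motive -/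
noncomputable def mot : RT.MotiveOver F ℚ where
  w := 1
  n := 2 * C.g
  hodge := Multiset.replicate (C.g * Module.finrank ℚ F) 0
  hodge_card := by
    rw [Multiset.card_replicate]
    ring
  hodge_lt := fun p hp => by
    rw [Multiset.eq_of_mem_replicate hp]
    norm_num
  odd_cm := fun h => absurd h (by simp)
  bad := C.bad
  frob := C.frob
  monic := C.monic
  pure := fun p hp hp0 hpb ι α hα => by
    have h1 : ι = algebraMap ℚ ℂ := Subsingleton.elim _ _
    rw [h1] at hα
    rw [C.pure p hp hp0 hpb α hα]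
    norm_num

variable (k : Type) [Field k] [NumberField k] [Algebra F k]

lemma euler_eq (v : HeightOneSpectrum (𝓞 k)) :
    RT.eulerFactor (mot C) (algebraMap ℚ ℂ) k v 2 = eulerFactor C k v := by
  have h1 : (Ideal.absNorm v.asIdeal : ℂ) ^ (-(2 : ℂ)) = ((Ideal.absNorm v.asIdeal : ℂ) ^ 2)⁻¹ := by
    rw [Complex.cpow_neg, Complex.cpow_ofNat]
  rw [RT.eulerFactor, eulerFactor, h1]
  rfl

lemma two_gt : 1 + ((mot C).w : ℝ) / 2 < (2 : ℂ).re := by
  change 1 + ((1 : ℤ) : ℝ) / 2 < (2 : ℂ).re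
  norm_num

lemma LValue_eq : LValue C k = Complex.exp (RT.lg (mot C) (algebraMap ℚ ℂ) k 2) := by
  have h1 := RT.hasProd_euler (k := k) (mot C) (algebraMap ℚ ℂ) (two_gt C)
  rw [← h1.tprod_eq, LValue]
  exact tprod_congr fun v => (euler_eq C k v).symm

end L

section main

variable {F : Type} [Field F] [NumberField F] {C : CurveOver F} {K : Type} [Field K]
  [NumberField K] [Algebra F K] [IsGalois F K] (D : MotivicCohomology C K)

lemma mem_fixed (U : Subgroup (K ≃ₐ[F] K)) (s : K ≃ₐ[F] K) :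
    s ∈ U ↔ ∀ x : fixedField U, s (algebraMap (fixedField U) K x) = algebraMap (fixedField U) K x := by
  have hfin : FiniteDimensional F K := Module.Finite.of_restrictScalars_finite ℚ F K
  conv_lhs => rw [← IntermediateField.fixingSubgroup_fixedField U]
  rw [IntermediateField.mem_fixingSubgroup_iff]
  exact ⟨fun h x => h x.1 x.2, fun h x hx => h ⟨x, hx⟩⟩

lemma hyper_bot : Hyperelementary (⊥ : Subgroup (K ≃ₐ[F] K)) :=
  ⟨2, Nat.prime_two, 1, by simp, fun u => by simp, fun u => ⟨0, by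
    rw [Subsingleton.elim (u ^ 2 ^ 0) 1]
    exact Subgroup.one_mem _⟩⟩

/-- a basis of the invariants of the trivial group -/
lemma fixd_bot {V : Type} [AddCommGroup V] [Module ℚ V] (a : Representation ℚ (K ≃ₐ[F] K) V) :
    fixd a ⊥ = ⊤ := by
  ext x
  refine ⟨fun _ => trivial, fun _ u hu => ?_⟩
  rw [Subgroup.mem_bot.mp hu, map_one]
  rfl

theorem assemble {W : Subgroup (K ≃ₐ[F] K)} {k : Type} [Field k] [NumberField k] [Algebra F k]
    [Algebra k K] [IsScalarTower F k K] (hk : RT.Mat W k)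
    (hW : ∀ s : K ≃ₐ[F] K, s ∈ W ↔ ∀ x : k, s (algebraMap k K x) = algebraMap k K x)
    (h : ∀ U : Subgroup (K ≃ₐ[F] K), Hyperelementary U → Beilinson (fixedField U) D) :
    Beilinson k D := by
  classical
  have : Fintype (Subgroup (K ≃ₐ[F] K)) := Fintype.ofFinite _
  obtain ⟨c, hc1, hc2, hc3, -⟩ := Pool.Agent.K9h41.DC.exists_coeff' W
  have hpi : (2 * (Real.pi : ℂ)) ≠ 0 := mul_ne_zero two_ne_zero (by exact_mod_cast Real.pi_ne_zero)
  -- the bases over `K`
  obtain ⟨ξ0, γ0, q0, hq0, h0⟩ := (beil_iff D (mem_fixed ⊥)).mp (h ⊥ hyper_bot)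
  let eV : fixd (galV D) (⊥ : Subgroup (K ≃ₐ[F] K)) ≃ₗ[ℚ] D.V :=
    (LinearEquiv.ofEq _ _ (fixd_bot (galV D))).trans Submodule.topEquiv
  let eH : fixd (galH C K) (⊥ : Subgroup (K ≃ₐ[F] K)) ≃ₗ[ℚ] homologyMinus C K :=
    (LinearEquiv.ofEq _ _ (fixd_bot (galH C K))).trans Submodule.topEquiv
  have hdet : (Matrix.of fun i j => tot D ((ξ0.map eV) i) ((γ0.map eH) j)).det ≠ 0 := by
    have h1 : (Matrix.of fun i j => tot D ((ξ0.map eV) i) ((γ0.map eH) j)).det
        = (Matrix.of fun i j => tot D (ξ0 i : D.V) (γ0 j : homologyMinus C K)).det := by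
      congr 1
    rw [h1]
    intro h2
    rw [h2, LValue_eq, Complex.ofReal_zero] at h0
    exact mul_ne_zero (by exact_mod_cast hq0)
      (div_ne_zero (Complex.exp_ne_zero _) (pow_ne_zero _ hpi)) h0.symm
  -- the degrees
  have hdeg : ∑ U, c U * ((C.g * Module.finrank ℚ (fixedField U) : ℕ) : ℤ)
      = ((C.g * Module.finrank ℚ k : ℕ) : ℤ) := by
    have h1 : ∑ U, c U * (Module.finrank F (fixedField U) : ℤ) = Module.finrank F k := by
      rw [← hk.deg, ← hc3 1]
      exact Finset.sum_congr rfl fun U _ => by rw [(RT.mat_fixed U).deg]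
    rw [← Module.finrank_mul_finrank ℚ F k]
    push_cast
    rw [← h1, Finset.mul_sum, Finset.mul_sum]
    refine Finset.sum_congr rfl fun U _ => ?_
    rw [← Module.finrank_mul_finrank ℚ F (fixedField U)]
    push_cast
    ring
  -- the given equalities
  have h1 : ∀ U : Subgroup (K ≃ₐ[F] K), ∃ q : ℚ, q ≠ 0 ∧ (c U ≠ 0 →
      ∃ (ξ : Basis (Fin (C.g * Module.finrank ℚ (fixedField U))) ℚ (fixd (galV D) U))
        (γ : Basis (Fin (C.g * Module.finrank ℚ (fixedField U))) ℚ (fixd (galH C K) U)),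
        (((Matrix.of fun i j => tot D (ξ i : D.V) (γ j : homologyMinus C K)).det : ℝ) : ℂ)
          = q * (LValue C (fixedField U) /
            (2 * Real.pi) ^ (2 * (C.g * Module.finrank ℚ (fixedField U))))) := by
    intro U
    by_cases hU : c U = 0
    · exact ⟨1, one_ne_zero, fun h0 => absurd hU h0⟩
    · obtain ⟨ξ, γ, q, hq, h2⟩ := (beil_iff D (mem_fixed U)).mp (h U (hc1 U hU).1)
      exact ⟨q, hq, fun _ => ⟨ξ, γ, h2⟩⟩
  choose q hq h2 using h1
  obtain ⟨ξ, γ, r, hr, h3⟩ := reg_rel (tot_inv D) (ξ0.map eV) (γ0.map eH) hdet c W hc3 _ _ hdeg _ h2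
  refine (beil_iff D hW).mpr ⟨ξ, γ, r * ∏ U, q U ^ c U,
    mul_ne_zero hr (Finset.prod_ne_zero_iff.mpr fun U _ => zpow_ne_zero _ (hq U)), ?_⟩
  rw [h3]
  have h4 : ∏ U, (q U * (LValue C (fixedField U) /
      (2 * Real.pi) ^ (2 * (C.g * Module.finrank ℚ (fixedField U)))) : ℂ) ^ c U
      = (∏ U, (q U : ℂ) ^ c U) * (LValue C k / (2 * Real.pi) ^ (2 * (C.g * Module.finrank ℚ k))) := by
    simp only [mul_zpow, div_zpow]
    rw [Finset.prod_mul_distrib, Finset.prod_div_distrib]
    congr 2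
    · rw [LValue_eq, ← RT.lg_rel hk hc2 (mot C) (algebraMap ℚ ℂ) (two_gt C), Complex.exp_sum]
      refine Finset.prod_congr rfl fun U _ => ?_
      rw [LValue_eq, ← Complex.exp_int_mul]
    · refine RT.prod_zpow_nat _ hpi _ _ ?_
      have h5 : ∑ U, c U * ((2 * (C.g * Module.finrank ℚ (fixedField U)) : ℕ) : ℤ)
          = 2 * ∑ U, c U * ((C.g * Module.finrank ℚ (fixedField U) : ℕ) : ℤ) := by
        rw [Finset.mul_sum]
        refine Finset.sum_congr rfl fun U _ => ?_
        push_cast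
        ring
      rw [h5, hdeg]
      push_cast
      ring
  rw [h4]
  push_cast
  ring

theorem main (h : ∀ U : Subgroup (K ≃ₐ[F] K), Hyperelementary U → Beilinson (fixedField U) D) :
    (∀ k : IntermediateField F K, Beilinson k D) ∧ Beilinson F D := by
  have hfin : FiniteDimensional F K := Module.Finite.of_restrictScalars_finite ℚ F K
  constructor
  · intro k
    have h1 := assemble D (RT.mat_fixed k.fixingSubgroup) (mem_fixed k.fixingSubgroup) h
    rwa [IsGalois.fixedField_fixingSubgroup k] at h1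
  · exact assemble D (RT.mat_top (K := K)) (fun s => ⟨fun _ x => s.commutes x, fun _ => trivial⟩) h

end main

end Pool.Agent.K9h86.BK
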