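import Mathlib
import Pool.Agent.K9h86.BK.As
import Pool.Agent.K9h86.BQ.Rb
import Pool.Agent.K9h76.LB.Mn

/-!
# Beilinson's conjecture and arbitrary relations between permutation characters; test extensions
-/

set_option autoImplicit false
set_option linter.unusedSectionVars false

namespace Pool.Agent.K9h86.BK

open Module NumberField IntermediateField IsDedekindDomain Polynomial Pool.Agent.R389
  Pool.Agent.K4H74.ST Pool.Agent.K4H74.SC Pool.Agent.K9h41.LD Pool.Agent.K9h76.LB

variable {F : Type} [Field F] [NumberField F] {C : CurveOver F} {K : Type} [Field K]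
  [NumberField K] [Algebra F K] [IsGalois F K] (D : MotivicCohomology C K)

/-- the conjecture for `k` from those for the fixed fields in a relation between the permutation
characters -/
theorem assemble_gen {W : Subgroup (K ≃ₐ[F] K)} {k : Type} [Field k] [NumberField k] [Algebra F k]
    [Algebra k K] [IsScalarTower F k K] (hk : RT.Mat W k)
    (hW : ∀ s : K ≃ₐ[F] K, s ∈ W ↔ ∀ x : k, s (algebraMap k K x) = algebraMap k K x)
    [Fintype (Subgroup (K ≃ₐ[F] K))] {c : Subgroup (K ≃ₐ[F] K) → ℤ}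
    (hc2 : ∀ g : K ≃ₐ[F] K, ∑ U, (c U : ℂ) * ind U (fun _ => (1 : ℂ)) g
      = ind W (fun _ => (1 : ℂ)) g)
    (h : ∀ U : Subgroup (K ≃ₐ[F] K), c U ≠ 0 → Beilinson (fixedField U) D) :
    Beilinson k D := by
  classical
  have hc3 : ∀ g : K ≃ₐ[F] K, ∑ U, c U * (Pool.Agent.K9h41.DC.fx U g : ℤ)
      = Pool.Agent.K9h41.DC.fx W g := fun g => by
    have h1 := hc2 g
    rw [Pool.Agent.K9h41.DC.ind_one] at h1
    have h2 : ∑ U, (c U : ℂ) * Pool.Agent.K9h41.DC.fx U g = Pool.Agent.K9h41.DC.fx W g := by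
      rw [← h1]
      exact Finset.sum_congr rfl fun U _ => by rw [Pool.Agent.K9h41.DC.ind_one]
    exact_mod_cast h2
  have hpi : (2 * (Real.pi : ℂ)) ≠ 0 := mul_ne_zero two_ne_zero (by exact_mod_cast Real.pi_ne_zero)
  -- the degrees
  have hdeg : ∑ U, c U * ((C.g * Module.finrank ℚ (fixedField U) : ℕ) : ℤ)
      = ((C.g * Module.finrank ℚ k : ℕ) : ℤ) := by
    have h1 : ∑ U, c U * (Module.finrank F (fixedField U) : ℤ) = Module.finrank F k := by
      rw [← hk.deg, ← hc3 1]
      exact Finset.sum_congr rfl fun U _ => by rw [(RT.mat_fixed U).deg]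
    rw [← Module.finrank_mul_finrank ℚ F k]
    push_cast
    rw [← h1, Finset.mul_sum, Finset.mul_sum]
    refine Finset.sum_congr rfl fun U _ => ?_
    rw [← Module.finrank_mul_finrank ℚ F (fixedField U)]
    push_cast
    ring
  -- the given equalities
  have h1 : ∀ U : Subgroup (K ≃ₐ[F] K), ∃ q : ℚ, q ≠ 0 ∧ (c U ≠ 0 →
      ∃ (ξ : Basis (Fin (C.g * Module.finrank ℚ (fixedField U))) ℚ (fixd (galV D) U))
        (γ : Basis (Fin (C.g * Module.finrank ℚ (fixedField U))) ℚ (fixd (galH C K) U)),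
        (((Matrix.of fun i j => tot D (ξ i : D.V) (γ j : homologyMinus C K)).det : ℝ) : ℂ)
          = q * (LValue C (fixedField U) /
            (2 * Real.pi) ^ (2 * (C.g * Module.finrank ℚ (fixedField U))))) := by
    intro U
    by_cases hU : c U = 0
    · exact ⟨1, one_ne_zero, fun h0 => absurd hU h0⟩
    · obtain ⟨ξ, γ, q, hq, h2⟩ := (beil_iff D (mem_fixed U)).mp (h U hU)
      exact ⟨q, hq, fun _ => ⟨ξ, γ, h2⟩⟩
  choose q hq h2 using h1
  have hz : ∀ U : Subgroup (K ≃ₐ[F] K), c U ≠ 0 → (q U * (LValue C (fixedField U) /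
            (2 * Real.pi) ^ (2 * (C.g * Module.finrank ℚ (fixedField U)))) : ℂ) ≠ 0 := by
    intro U _
    rw [LValue_eq]
    exact mul_ne_zero (by exact_mod_cast hq U)
      (div_ne_zero (Complex.exp_ne_zero _) (pow_ne_zero _ hpi))
  obtain ⟨ξ, γ, r, hr, h3⟩ := BQ.rel (tot_inv D) c W hc3 _ _ hdeg _ hz h2
  refine (beil_iff D hW).mpr ⟨ξ, γ, r * ∏ U, q U ^ c U,
    mul_ne_zero hr (Finset.prod_ne_zero_iff.mpr fun U _ => zpow_ne_zero _ (hq U)), ?_⟩
  rw [h3]
  have h4 : ∏ U, (q U * (LValue C (fixedField U) /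
      (2 * Real.pi) ^ (2 * (C.g * Module.finrank ℚ (fixedField U)))) : ℂ) ^ c U
      = (∏ U, (q U : ℂ) ^ c U) * (LValue C k / (2 * Real.pi) ^ (2 * (C.g * Module.finrank ℚ k))) := by
    simp only [mul_zpow, div_zpow]
    rw [Finset.prod_mul_distrib, Finset.prod_div_distrib]
    congr 2
    · rw [LValue_eq, ← RT.lg_rel hk hc2 (mot C) (algebraMap ℚ ℂ) (two_gt C), Complex.exp_sum]
      refine Finset.prod_congr rfl fun U _ => ?_
      rw [LValue_eq, ← Complex.exp_int_mul]
    · refine RT.prod_zpow_nat _ hpi _ _ ?_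
      have h5 : ∑ U, c U * ((2 * (C.g * Module.finrank ℚ (fixedField U)) : ℕ) : ℤ)
          = 2 * ∑ U, c U * ((C.g * Module.finrank ℚ (fixedField U) : ℕ) : ℤ) := by
        rw [Finset.mul_sum]
        refine Finset.sum_congr rfl fun U _ => ?_
        push_cast
        ring
      rw [h5, hdeg]
      push_cast
      ring
  rw [h4]
  push_cast
  ring

end Pool.Agent.K9h86.BK

namespace Pool.Agent.K9h86.BK

open Module NumberField IntermediateField Pool.Agent.R389 Pool.Agent.K4H74.ST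
  Pool.Agent.K4H74.SC Pool.Agent.K9h86.RT Pool.Agent.K9h41.LD Pool.Agent.K9h76.LB

/-- the extension `K = F · K₀` for all curves over `F` -/
theorem main_ld (F : Type) [Field F] [NumberField F] {p q : ℕ} (hp : p.Prime) (hq : q.Prime)
    (hp2 : p ≠ 2) (hq2 : q ≠ 2) (hpq : p ≠ q) (S : Finset ℕ) (hS : ∀ r ∈ S, r.Prime) (F₀ : Type)
    [Field F₀] [NumberField F₀] [Algebra F F₀] :
    ∃ (K : Type) (_ : Field K) (_ : NumberField K) (_ : Algebra F K) (_ : IsGalois F K),
      Nonempty ((K ≃ₐ[F] K) ≃* Multiplicative ((ZMod p × ZMod p) × (ZMod q × ZMod q))) ∧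
      (∀ k : IntermediateField F K, IsTestExtension (S : Set ℕ) F₀ F k) ∧
      ∀ (C : CurveOver F) (D : MotivicCohomology C K),
        (∀ k : IntermediateField F K, Module.finrank F k ∈ ({p, p ^ 2, q, q ^ 2} : Set ℕ) →
          Beilinson k D) → Beilinson F D := by
  classical
  have : Fact p.Prime := ⟨hp⟩
  have : Fact q.Prime := ⟨hq⟩
  obtain ⟨K₀, iF, iN, ht, hdeg, ⟨e⟩⟩ := exists_test p q hp hq hp2 hq2 S hS F₀
  have hgal₀ := ht.galois
  obtain ⟨K, jF, jN, jA, hgal, j, φ, hφ⟩ := exists_comp (F := F) (K₀ := K₀)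
    (fun T hT => ht.disjoint T ⟨(algebraMap F F₀).comp hT.some⟩)
  have hfin : FiniteDimensional F K := Module.Finite.of_restrictScalars_finite ℚ F K
  have : Fintype (Subgroup (K ≃ₐ[F] K)) := Fintype.ofFinite _
  let g : (K ≃ₐ[F] K) ≃* Multiplicative ((ZMod p × ZMod p) × (ZMod q × ZMod q)) := φ.trans e
  refine ⟨K, jF, jN, jA, hgal, ⟨g⟩, fun k => test_of_sub hS ht j φ hφ k, fun C D h => ?_⟩
  let f : (K ≃ₐ[F] K) →* Multiplicative (ZMod p × ZMod p) :=
    (AddMonoidHom.toMultiplicative (AddMonoidHom.fst _ _)).comp g.toMonoidHom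
  let f' : (K ≃ₐ[F] K) →* Multiplicative (ZMod q × ZMod q) :=
    (AddMonoidHom.toMultiplicative (AddMonoidHom.snd _ _)).comp g.toMonoidHom
  have hf : Function.Surjective f := by
    intro y
    obtain ⟨x, hx⟩ := g.surjective (Multiplicative.ofAdd (y.toAdd, 0))
    refine ⟨x, ?_⟩
    change Multiplicative.ofAdd (g x).toAdd.1 = y
    rw [hx]
    rfl
  have hf' : Function.Surjective f' := by
    intro y
    obtain ⟨x, hx⟩ := g.surjective (Multiplicative.ofAdd (0, y.toAdd))
    refine ⟨x, ?_⟩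
    change Multiplicative.ofAdd (g x).toAdd.2 = y
    rw [hx]
    rfl
  obtain ⟨c, hc1, hc2⟩ := exists_rel hpq hf hf'
  refine assemble_gen D (mat_top (K := K)) (fun s => ⟨fun _ x => s.commutes x, fun _ => trivial⟩)
    (c := c) (fun x => ?_) fun U hU => ?_
  · rw [hc2 x, ind_top']
  · refine h (fixedField U) ?_
    have h1 : Module.finrank F (fixedField U) = U.index := by
      rw [finrank_eq_fixingSubgroup_index, IntermediateField.fixingSubgroup_fixedField]
    rw [h1]
    simpa using hc1 U hU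

end Pool.Agent.K9h86.BK
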